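import Mathlib
import Pool.Agent.KS6_5.HT.Main

set_option autoImplicit false
set_option maxSynthPendingDepth 3

open Filter Topology TopologicalSpace WeakDual H611R4 H611R3.ZL Pool.Agent.KS6_5.HT

namespace Pool.Agent.Results.MP_9053f7_an.EveryMetrizableSpectrum

/-- There is a counterexample `A` to the question whose Gelfand spectrum is `X`, such that no set of the
family `F` (viewed in the spectrum by the homeomorphism `h`) is spectral for `A`.

`Counterexample A` says that `A` is a (unital) commutative complex Banach algebra which is semisimple,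
regular on its Gelfand spectrum, whose projective tensor square `A ⊗̂ A` is semisimple, and which is
amenable but not hyper-Tauberian; `SpectralSet A E` says that the closed set `E` of the spectrum is
spectral for `A`. -/
def HasExample (X : Type) [TopologicalSpace X] (F : Set (Set X)) : Prop :=
  ∃ (A : Type) (_ : NormedCommRing A) (_ : NormedAlgebra ℂ A) (h : X ≃ₜ characterSpace ℂ A),
    Counterexample A ∧ ∀ S ∈ F, ¬ SpectralSet A (h '' S)

/-- **Amenable algebras that are not hyper-Tauberian, with prescribed spectrum.**

(1) A compact metrizable space `X` is the Gelfand spectrum of a counterexample if and only if it is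
infinite. (2) For a closed subset `S` of a compact metrizable space `X` there is a counterexample with
spectrum `X` for which `S` is not spectral if and only if `S` is not open. (3) If `X` is any compact
Hausdorff space, `S ⊆ X` is closed and a sequence in `X \ S` converges to the point `p ∈ S`, then there
is a counterexample with spectrum `X` for which neither `S` nor `{p}` is spectral. -/
theorem result :
    (∀ (X : Type) [TopologicalSpace X] [CompactSpace X] [MetrizableSpace X],
      (HasExample X ∅ ↔ Infinite X) ∧
      ∀ S : Set X, IsClosed S → (HasExample X {S} ↔ ¬ IsOpen S)) ∧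
    ∀ (X : Type) [TopologicalSpace X] [CompactSpace X] [T2Space X] (S : Set X) (p : X)
      (x : ℕ → X), IsClosed S → p ∈ S → (∀ n, x n ∉ S) → Tendsto x atTop (𝓝 p) →
        HasExample X {S, {p}} := by
  refine ⟨fun X _ _ _ => ⟨⟨?_, ?_⟩, fun S hS => ⟨?_, ?_⟩⟩,
    fun X _ _ _ S p x hS hp hxS hx => ?_⟩
  · rintro ⟨A, i1, i2, h, hA, -⟩
    rw [← not_finite_iff_infinite]
    intro hfin
    have : Finite (characterSpace ℂ A) := Finite.of_equiv X h.toEquiv
    exact hA.2.2.2.2.2 hyperTaub_of_finite
  · intro hinf
    obtain ⟨p, x, hx, hxp⟩ := exists_seq (X := X)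
    obtain ⟨A, i1, i2, h, hA, -⟩ := exists_alg {p} isClosed_singleton p rfl x hx
      (fun n hn => hxp n hn)
    exact ⟨A, i1, i2, h, hA, fun S hS => absurd hS (Set.notMem_empty S)⟩
  · rintro ⟨A, i1, i2, h, -, hns⟩ hop
    apply hns S rfl
    intro a ha ε hε
    refine ⟨a, ?_, by rwa [sub_self, norm_zero]⟩
    have hop' : IsOpen (h '' S) := h.isOpenMap S hop
    rw [Set.disjoint_right]
    intro φ hφ hcl
    rw [mem_closure_iff] at hcl
    obtain ⟨ψ, h1, h2⟩ := hcl _ hop' hφ
    exact h2 (ha ψ h1)
  · intro hop
    have h1 : ∃ p ∈ S, p ∈ closure Sᶜ := by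
      by_contra hcon
      push Not at hcon
      apply hop
      rw [← isClosed_compl_iff, ← closure_subset_iff_isClosed]
      intro p hp hpS
      exact hcon p hpS hp
    obtain ⟨p, hpS, hp⟩ := h1
    obtain ⟨x, hx1, hx2⟩ := mem_closure_iff_seq_limit.1 hp
    obtain ⟨A, i1, i2, h, hA, hS', -⟩ := exists_alg S hS p hpS x hx2 hx1
    refine ⟨A, i1, i2, h, hA, fun S'' hS'' => ?_⟩
    rw [Set.mem_singleton_iff.1 hS'']
    exact hS'
  · obtain ⟨A, i1, i2, h, hA, hS', hp'⟩ := exists_alg S hS p hp x hx hxS
    refine ⟨A, i1, i2, h, hA, fun S'' hS'' => ?_⟩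
    rcases hS'' with rfl | hS''
    · exact hS'
    · rw [Set.mem_singleton_iff.1 hS'', Set.image_singleton]
      exact hp'

end Pool.Agent.Results.MP_9053f7_an.EveryMetrizableSpectrum
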